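import Pool.Agent.R729.WD.Inst
import Pool.Agent.R729.WD.FR

/-!
# MP_88e59f_gt (Q1): compact scattered hereditarily wD spaces that are not bisequential

* In ZFC there is a separable one.  This answers Q1, as stated, in the negative.
* If `𝔟 = 𝔡`, there is one that is separable and Fréchet–Urysohn.
* If `C n` (`n : ℕ`) are linear orders without maximum such that every family of fewer than
  `2 ^ |⨆ C n|` functions in the product is bounded modulo finite, there is a Fréchet–Urysohn one.
* This applies if `2 ^ μ = μ⁺` for some singular cardinal `μ` of countable cofinality; in particular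
  the singular cardinal hypothesis is enough.
-/

open Set Filter Topology

namespace Pool.Agent.Results.MP_88e59f_gt.FrechetExamples

open Pool.Agent.R729.WD

theorem result :
    (∃ (X : Type) (_ : TopologicalSpace X), Counterexample X ∧ TopologicalSpace.SeparableSpace X) ∧
    (BoundingEqDominating → ∃ (X : Type) (_ : TopologicalSpace X), Counterexample X ∧
      FrechetUrysohnSpace X ∧ TopologicalSpace.SeparableSpace X) ∧
    (∀ (C : ℕ → Type) [∀ n, LinearOrder (C n)] [∀ n, Nonempty (C n)] [∀ n, NoMaxOrder (C n)],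
      BoundedModFinite C (2 ^ Cardinal.mk (Σ n, C n)) →
      ∃ (X : Type) (_ : TopologicalSpace X), Counterexample X ∧ FrechetUrysohnSpace X) ∧
    (∀ μ : Cardinal.{0}, Cardinal.aleph0 < μ → μ.ord.cof = Cardinal.aleph0 →
      (2 : Cardinal.{0}) ^ μ = Order.succ μ →
      ∃ (X : Type) (_ : TopologicalSpace X), Counterexample X ∧ FrechetUrysohnSpace X) ∧
    (SCH → ∃ (X : Type) (_ : TopologicalSpace X), Counterexample X ∧ FrechetUrysohnSpace X) := by
  refine ⟨?_, ?_, ?_, ?_, ?_⟩
  · obtain ⟨X, tX, h1, h2, h3, h4, h5, h6⟩ := separable_example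
    exact ⟨X, tX, ⟨h1, h2, h4, h5, h6⟩, h3⟩
  · intro h
    obtain ⟨X, tX, h1, h2, h3, h4, h5, h6, h7⟩ := space_of_bd h
    exact ⟨X, tX, ⟨h1, h2, h4, h5, h6⟩, h3, h7⟩
  · intro C _ _ _ h
    obtain ⟨X, tX, h1, h2, h3, h4, h5, h6⟩ := space_of_bounded h
    exact ⟨X, tX, ⟨h1, h2, h4, h5, h6⟩, h3⟩
  · intro μ h h' h''
    obtain ⟨X, tX, h1, h2, h3, h4, h5, h6⟩ := space_of_singular μ h h' h''
    exact ⟨X, tX, ⟨h1, h2, h4, h5, h6⟩, h3⟩
  · intro h
    obtain ⟨X, tX, h1, h2, h3, h4, h5, h6⟩ := space_of_sch h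
    exact ⟨X, tX, ⟨h1, h2, h4, h5, h6⟩, h3⟩

end Pool.Agent.Results.MP_88e59f_gt.FrechetExamples
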